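import Pool.Agent.Lib.MP_81cdd9_nt.NR.J

/-! The `5x+1` map: inverse orbits in bounded time. Outside a set of at most `x^(1 - ε/(200 τ) + o(1))` integers, at most
`x^(ε + o(1))` integers `n`, `|n| ≤ x`, reach a given integer `a` within `τ log x` steps, and none if `|a| ≤ x^(1 - ε)`. -/

set_option autoImplicit false

namespace Pool.Agent.Results.MP_02a951_nt.BoundedTime

/-- the `5x+1` map -/
def T (n : ℤ) : ℤ := if n % 2 = 0 then n / 2 else (5 * n + 1) / 2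

/-- the integers `n` with `|n| ≤ x` such that `T^k(n) = a` for some `k ≤ τ log x` -/
def Reach (τ x : ℝ) (a : ℤ) : Set ℤ :=
  {n : ℤ | |(n : ℝ)| ≤ x ∧ ∃ k : ℕ, (k : ℝ) ≤ τ * Real.log x ∧ T^[k] n = a}

/-- For `τ ≥ 1`, `0 < ε ≤ 1`, `x ≥ 2` there is a set `E` of at most `100000 (τ log x)^5 x^(1 - ε/(200 τ))` integers of absolute value
at most `x` such that for every integer `a` at most `15 (τ log x)^3 x^ε` elements of `Reach τ x a` are outside of `E`, and none if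
`|a| ≤ x^(1 - ε)`. -/
theorem result : ∀ τ ε x : ℝ, 1 ≤ τ → 0 < ε → ε ≤ 1 → 2 ≤ x → ∃ E : Set ℤ, (∀ n ∈ E, |(n : ℝ)| ≤ x) ∧
    (E.ncard : ℝ) ≤ 100000 * (τ * Real.log x) ^ 5 * x ^ (1 - ε / (200 * τ)) ∧
    ∀ a : ℤ, ((Reach τ x a \ E).ncard : ℝ) ≤ 15 * (τ * Real.log x) ^ 3 * x ^ ε ∧
      (|(a : ℝ)| ≤ x ^ (1 - ε) → Reach τ x a ⊆ E) := by
  intro τ ε x hτ hε hε1 hx
  refine ⟨Pool.Agent.MP81cdd9.NR.LowR τ ε x, fun n hn => hn.1,
    Pool.Agent.MP81cdd9.NR.count_low hτ hε hε1 hx, fun a => ⟨?_, ?_⟩⟩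
  · have h1 := Pool.Agent.MP81cdd9.NR.count_fib hτ hε hx a
    have h2 : Reach τ x a \ Pool.Agent.MP81cdd9.NR.LowR τ ε x = Pool.Agent.MP81cdd9.NR.Fib τ ε x a := by
      ext n
      constructor
      · rintro ⟨⟨h3, h4⟩, h5⟩
        exact ⟨h3, h5, h4⟩
      · rintro ⟨h3, h5, h4⟩
        exact ⟨⟨h3, h4⟩, h5⟩
    rw [h2]
    exact h1
  · rintro ha n ⟨h3, k, hk, h4⟩
    refine ⟨h3, k, hk, ?_⟩
    have h5 : Pool.Agent.MP81cdd9.HZ.T^[k] n = a := h4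
    rw [h5]
    exact ha

end Pool.Agent.Results.MP_02a951_nt.BoundedTime
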