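import Pool.Agent.Lib.MP_02a951_nt.Final

/-!
# Inverse orbits of the `5x+1` map: an explicit exponent

For every integer `a` not divisible by `5`, the number of integers `n` with `|n| ≤ x` whose forward
orbit under the `5x+1` map contains `a` is at least `x ^ 0.46` for all large `x`; so the lower
growth exponent of `a` is at least `0.46`.
-/

set_option autoImplicit false

namespace Pool.Agent.Results.MP_02a951_nt.LowerExponent

open Pool.Agent.Lib.MP_02a951_nt

/-- **Main theorem.** -/
theorem result (a : ℤ) (ha : ¬ ((5 : ℤ) ∣ a)) :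
    ∀ᶠ x : ℝ in Filter.atTop,
      x ^ (0.46 : ℝ) ≤ ((Set.ncard {n : ℤ | |(n : ℝ)| ≤ x ∧
          ∃ k : ℕ, (fun m : ℤ => if m % 2 = 0 then m / 2 else (5 * m + 1) / 2)^[k] n = a} : ℕ) : ℝ) :=
  main_eventually ha

end Pool.Agent.Results.MP_02a951_nt.LowerExponent
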